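import Mathlib
import Pool.Agent.N343.AS.Stm

/-!
Project AS (helper343), leaf NUL: infinitely many digits in an interval, almost everywhere
(helper291).
-/

set_option autoImplicit false

open Filter Topology MeasureTheory Set Metric

namespace Pool.Agent.N291.AS.NulAE

/-- the points whose digits avoid the interval from `n` on -/
def F (e : ℕ → ℕ) (u v : ℝ) (n : ℕ) : Set ℝ :=
  {x | ∀ N, n ≤ N → Int.fract (x * 2 ^ (e N)) ∉ Set.Ioo u v}

theorem meas (e : ℕ → ℕ) (u v : ℝ) (n : ℕ) : MeasurableSet (F e u v n) := by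
  have : F e u v n = ⋂ N : ℕ, ⋂ _ : n ≤ N, {x : ℝ | Int.fract (x * 2 ^ (e N)) ∈ Set.Ioo u v}ᶜ := by
    ext x
    simp [F]
  rw [this]
  refine MeasurableSet.iInter fun N => MeasurableSet.iInter fun _ => MeasurableSet.compl ?_
  have h : Measurable fun x : ℝ => Int.fract (x * 2 ^ (e N)) :=
    measurable_fract.comp (measurable_id.mul_const _)
  exact h measurableSet_Ioo

theorem null (e : ℕ → ℕ) (he : StrictMono e) (u v : ℝ) (hu : 0 ≤ u) (huv : u < v) (hv : v ≤ 1)
    (n : ℕ) : volume (F e u v n) = 0 := by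
  rw [← Measure.restrict_eq_zero, ← ae_eq_bot, ← Filter.eventually_false_iff_eq_bot]
  filter_upwards [IsUnifLocDoublingMeasure.ae_tendsto_measure_inter_div volume (F e u v n) 2,
    ae_restrict_mem (meas e u v n)] with x hx hxF
  -- the dyadic intervals
  let k : ℕ → ℤ := fun N => ⌊x * 2 ^ (e N)⌋
  let w : ℕ → ℝ := fun N => ((k N : ℝ) + 1 / 2) / 2 ^ (e N)
  let δ : ℕ → ℝ := fun N => (1 / 2) / 2 ^ (e N)
  have hp : ∀ N, (0 : ℝ) < 2 ^ (e N) := fun N => by positivity
  have hδ0 : ∀ N, 0 < δ N := fun N => by simp only [δ]; positivity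
  have hδ : Tendsto δ atTop (𝓝[>] 0) := by
    rw [tendsto_nhdsWithin_iff]
    refine ⟨?_, Eventually.of_forall hδ0⟩
    have h1 : Tendsto (fun N => (2 : ℝ) ^ (e N)) atTop atTop :=
      (tendsto_pow_atTop_atTop_of_one_lt (by norm_num : (1 : ℝ) < 2)).comp he.tendsto_atTop
    exact h1.const_div_atTop (1 / 2)
  have hball : ∀ N, closedBall (w N) (δ N) =
      Set.Icc ((k N : ℝ) / 2 ^ (e N)) (((k N : ℝ) + 1) / 2 ^ (e N)) := by
    intro N
    rw [Real.closedBall_eq_Icc]
    simp only [w, δ]
    congr 1 <;> ring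
  have hmem : ∀ᶠ N in atTop, x ∈ closedBall (w N) (2 * δ N) := by
    refine Eventually.of_forall fun N => ?_
    have h1 : x ∈ closedBall (w N) (δ N) := by
      rw [hball]
      constructor
      · rw [div_le_iff₀ (hp N)]; exact Int.floor_le _
      · rw [le_div_iff₀ (hp N)]; exact (Int.lt_floor_add_one _).le
    exact closedBall_subset_closedBall (by linarith [hδ0 N]) h1
  have hlim := hx w δ hδ hmem
  have hle : ∀ᶠ N in atTop, volume (F e u v n ∩ closedBall (w N) (δ N)) /
      volume (closedBall (w N) (δ N)) ≤ ENNReal.ofReal (1 - (v - u)) := by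
    filter_upwards [eventually_ge_atTop n] with N hN
    have hsub : F e u v n ∩ closedBall (w N) (δ N) ⊆ closedBall (w N) (δ N) \
        Set.Ioo (((k N : ℝ) + u) / 2 ^ (e N)) (((k N : ℝ) + v) / 2 ^ (e N)) := by
      rintro y ⟨hyF, hyB⟩
      refine ⟨hyB, fun hyJ => hyF N hN ?_⟩
      obtain ⟨h1, h2⟩ := hyJ
      rw [div_lt_iff₀ (hp N)] at h1
      rw [lt_div_iff₀ (hp N)] at h2
      have hf : ⌊y * 2 ^ (e N)⌋ = k N := by
        rw [Int.floor_eq_iff]
        constructor <;> linarith
      rw [Int.fract, hf]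
      constructor <;> linarith
    have hJB : Set.Ioo (((k N : ℝ) + u) / 2 ^ (e N)) (((k N : ℝ) + v) / 2 ^ (e N)) ⊆
        closedBall (w N) (δ N) := by
      rw [hball]
      intro y hy
      constructor
      · refine le_trans ?_ hy.1.le
        rw [div_le_div_iff_of_pos_right (hp N)]; linarith
      · refine hy.2.le.trans ?_
        rw [div_le_div_iff_of_pos_right (hp N)]; linarith
    have hvB : volume (closedBall (w N) (δ N)) = ENNReal.ofReal (1 / 2 ^ (e N)) := by
      rw [hball, Real.volume_Icc]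
      congr 1
      ring
    have hvJ : volume (Set.Ioo (((k N : ℝ) + u) / 2 ^ (e N)) (((k N : ℝ) + v) / 2 ^ (e N))) =
        ENNReal.ofReal ((v - u) / 2 ^ (e N)) := by
      rw [Real.volume_Ioo]
      congr 1
      ring
    have h3 : volume (F e u v n ∩ closedBall (w N) (δ N)) ≤
        ENNReal.ofReal ((1 - (v - u)) * (1 / 2 ^ (e N))) := by
      refine (measure_mono hsub).trans ?_
      rw [measure_sdiff hJB measurableSet_Ioo.nullMeasurableSet (by rw [hvJ]; exact ENNReal.ofReal_ne_top),
        hvB, hvJ, ← ENNReal.ofReal_sub _ (div_nonneg (by linarith) (hp N).le)]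
      apply ENNReal.ofReal_le_ofReal
      apply le_of_eq
      ring
    rw [hvB]
    refine ENNReal.div_le_of_le_mul ?_
    refine h3.trans ?_
    rw [ENNReal.ofReal_mul (by linarith)]
  have hfin := le_of_tendsto hlim hle
  have : ENNReal.ofReal (1 - (v - u)) < 1 := by
    rw [← ENNReal.ofReal_one]
    exact (ENNReal.ofReal_lt_ofReal_iff one_pos).2 (by linarith)
  exact absurd hfin (not_le.2 this)

theorem main : Pool.Agent.N343.AS.S_NUL := by
  intro e he u v hu huv hv
  have h : ∀ᵐ x : ℝ, ∀ n, x ∉ F e u v n := by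
    rw [ae_all_iff]
    intro n
    exact measure_eq_zero_iff_ae_notMem.1 (null e he u v hu huv hv n)
  filter_upwards [h] with x hx
  by_contra hc
  rw [not_frequently, eventually_atTop] at hc
  obtain ⟨n, hn⟩ := hc
  exact hx n fun N hN => hn N hN

end Pool.Agent.N291.AS.NulAE
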